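import Mathlib
import Pool.Agent.Helper14.SP2.F.Cor
import Pool.Agent.Helper14.SP3.Main

/-!
Janzer's conjecture on the blowups of spiders, for all spiders with at most one leg shorter than
`k - 1`, and for all spiders whose short legs are not too short on average at the levels with two
shorter legs.
-/

set_option autoImplicit false

namespace Pool.Agent.Results.MP_03a1f6_co.OneShortLeg

open Finset
open Pool.Agent.Helper55.JS (blow)

theorem result (s t k : ℕ) (hs : 2 ≤ s) (hk : 2 ≤ k) (j : Fin s → ℕ)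
    (hj : ∀ c, 2 ≤ j c ∧ j c ≤ k) (hmax : ∃ c, j c = k) (hb : (s - 1) * k < ∑ c, j c)
    (h : (∀ c c', c ≠ c' → k - 1 ≤ j c ∨ k - 1 ≤ j c') ∨
      (∀ c, k + 1 ≤ j c + #{c' | j c' = k - 1}) ∨
      (∀ l, 2 ≤ l → l < k → 2 ≤ #{c | j c < l} →
        (∑ c, j c) * #{c | j c < l} ≤ (s - 1) * (l - 2 + ∑ c with j c < l, j c))) :
    ∃ C : ℝ, ∀ n : ℕ, (SimpleGraph.extremalNumber n (blow s t j) : ℝ) ≤
      C * (n : ℝ) ^ (1 + ((s - 1 : ℕ) : ℝ) / ((∑ c, j c : ℕ) : ℝ)) := by
  rcases h with h | h | h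
  · exact Pool.Agent.Helper14.SP.spider_one s t k hs hk j hj hmax hb h
  · exact Pool.Agent.Helper14.SP.spider_many s t k hs hk j
      (fun c => ⟨by have := (hj c).1; omega, (hj c).2⟩) hmax hb h
  · refine Pool.Agent.Helper14.SP.spider2 s t k hs hk j hj hmax hb fun l h1 h2 h3 => ?_
    have h4 := h l h1 h2 (by
      rw [Pool.Agent.Helper14.SP.card_filter_inst] at h3
      exact h3)
    rw [Pool.Agent.Helper14.SP.card_filter_inst]
    convert h4 using 3

end Pool.Agent.Results.MP_03a1f6_co.OneShortLeg
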