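import Mathlib
import Pool.Agent.Helper25.TH.Main

/-!
Janzer's bound for the blowups of all spiders, in host graphs without a large theta graph: for
every spider with legs of length at most `k`, a graph on `n` vertices which contains neither the
`t`-blowup of the spider nor the theta graph with `t'` paths of length `k` has
`O(n ^ (1 + (s - 1) / e(S)))` edges.
-/

set_option autoImplicit false

namespace Pool.Agent.Results.MP_03a1f6_co.ThetaFree

open Finset Pool.Agent.Helper55.JS

theorem result (s t t' k : ℕ) (j : Fin s → ℕ) (hs : 2 ≤ s) (ht : 1 ≤ t) (ht' : 1 ≤ t')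
    (hk : 2 ≤ k) (hj : ∀ c, 1 ≤ j c ∧ j c ≤ k) :
    ∃ C : ℝ, ∀ (n : ℕ) (G : SimpleGraph (Fin n)),
      ¬ (blow s t j).IsContained G → ¬ (blow 2 t' ![1, k - 1]).IsContained G →
      (G.edgeSet.ncard : ℝ) ≤ C * (n : ℝ) ^ (1 + ((s : ℝ) - 1) / ((∑ c, j c : ℕ) : ℝ)) := by
  obtain ⟨C, hC⟩ := Pool.Agent.Helper25.TH.theta_free (k := k) hs ht ht' (fun c => (hj c).1)
    (fun c => (hj c).2) (le_refl 1) (by omega : 1 ≤ k - 1) (by omega)
  exact ⟨C, fun n G h1 h2 => hC n G h1 h2⟩

end Pool.Agent.Results.MP_03a1f6_co.ThetaFree
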