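import Mathlib
import Pool.Agent.Helper55.JS.Final

/-!
Janzer's conjecture on the blowups of spiders, for all spiders with three legs two of which are
shorter than the third.
-/

set_option autoImplicit false

namespace Pool.Agent.Results.MP_03a1f6_co.ThreeLegged

open Pool.Agent.Helper55.JS

theorem result (j1 j2 k t : ℕ) (h1 : j1 < k) (h2 : j2 < k) (h : k < j1 + j2) (ht : 1 ≤ t) :
    ∃ C : ℝ, ∀ n : ℕ, (SimpleGraph.extremalNumber n (blow 3 t ![j1, j2, k]) : ℝ) ≤
      C * (n : ℝ) ^ (1 + 2 / ((j1 + j2 + k : ℕ) : ℝ)) :=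
  three_legs h1 h2 h ht

end Pool.Agent.Results.MP_03a1f6_co.ThreeLegged
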